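import Pool.Agent.H85.TG.Cov
import Pool.Agent.H85.TV.Lin

set_option autoImplicit false

/-!
# Seymour's question on non-regular matroids with regular deletion and contraction: four vertices of a
# graph

Let `G` be a finite graph with vertices `V` and edges `E` (loops and parallel edges allowed), given
by the ends `s f`, `t f` of its edges `f`, and let `T = {p 0, p 1, p 2, p 3}` be four different
vertices. `graft s t p` is the binary matroid on `Option E` given by the incidence vectors of the
edges and, for the added element `e = none`, the sum of the four vertices of `T`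
(`Pool/Agent/H85/TG/Gft.lean`). `Coloured s t p c`: the colouring `c` witnesses that no component of
`G - T` is adjacent to all of `T`. `Linkage s t p i j k l`: there are disjoint paths from `p i` to
`p j` and from `p k` to `p l`; `Dist i j k l`: the four indices are different.

(1) The matroid is binary and the deletion of `e` is the cycle matroid of `G`. (2) If no component of
`G - T` is adjacent to all of `T`, the contraction of `e` is graphic, too. (3) If one of the three
pairs of disjoint paths is missing, `graft s t p` is regular. (4) Let `G` be connected and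
`graft s t p` 3-connected. It is regular iff it is representable over some (any) field in which
`2 ≠ 0` iff one of the three pairs of paths is missing; it is then graphic if no component of `G - T`
is adjacent to all of `T`. If it is not regular, the contraction of `e` is regular iff it is
representable over some (any) field in which `2 ≠ 0` iff no component of `G - T` is adjacent to all of
`T`. (5) Let `G` be connected with a 3-connected cycle matroid. Then `graft s t p` is 3-connected, and
it is an answer to the question (with the element `e`) iff no component of `G - T` is adjacent to all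
of `T`.

(6) is about sets `T` of any even size: let `m >= 3` be odd and let `T` consist of a vertex `h` and `m`
other vertices `q i` (`i` in `ZMod m`), all different; `graftW s t h q` is the binary matroid given by
the incidence vectors of the edges and, for `none`, the sum of the `m + 1` vertices of `T`. `Wheel`
(`Pool/Agent/H85/TV/Gra.lean`): `q i` is adjacent in `T` to `h` and `q (i + 1)`, `q (i - 1)` only, and
each component of `G - T` has neighbours among `h`, `q i`, `q (i + 1)` only, for some `i` (the colour of
the component). Then the contraction of `none` is graphic, the deletion is the cycle matroid of `G`,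
and if `G` is connected with a 3-connected cycle matroid, `graftW s t h q` is 3-connected and not
representable over any field in which `2 ≠ 0`, so that it is an answer to the question.
-/

open Set Matroid
open scoped Matroid

namespace Pool.Agent.Results.MP_367fb1_co.FourVertices

open Pool.Agent.H18.SG (vec linMat linMat_indep gr)
open Pool.Agent.H36.TX (IsRep Rep Regular ThreeConn)
open Pool.Agent.H85.TG (ev graft Coloured Conn Graphic Linkage Dist)
open Pool.Agent.H85.TV (evW graftW Wheel)

theorem regular_of_graphic {α : Type} [Finite α] {N : Matroid α} (h : Graphic N) : Regular N := by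
  obtain ⟨U, _, _, a, b, h⟩ := h
  intro F _
  refine ⟨U → F, inferInstance, inferInstance, vec F a b, fun I hI => ?_⟩
  rw [h I hI, gr (ZMod 2) F]

theorem contract_graphic {V E : Type} [Fintype V] [DecidableEq V] [Finite E] (s t : E → V)
    (p : Fin 4 → V) (hp : Function.Injective p) (c : V → Fin 4) (hc : Coloured s t p c) :
    Graphic (graft s t p ／ {none}) := by
  choose a b hab using Pool.Agent.H85.TG.exists_ends s t p hp c hc
  refine ⟨V ⊕ Fin 3, inferInstance, inferInstance, fun o : Option E => o.elim (Sum.inr 0) a,
    fun o : Option E => o.elim (Sum.inr 0) b, ?_⟩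
  intro I hI
  have hn : none ∉ I := fun h => (hI h).2 rfl
  have hnl : (graft s t p).IsNonloop none := by
    rw [← indep_singleton, graft, linMat_indep]
    exact LinearIndepOn.singleton (Pool.Agent.H85.TG.ev_none_ne s t p hp)
  rw [hnl.contractElem_indep_iff, and_iff_right hn, graft, linMat_indep,
    Pool.Agent.H85.TG.contr_iff (ev s t p) (Pool.Agent.H85.TG.φ p c) hn
      (Pool.Agent.H85.TG.ev_none_ne s t p hp) (Pool.Agent.H85.TG.φ_none s t p hp c)]
  · apply linearIndepOn_congr
    intro o ho
    rcases o with _ | f
    · exact absurd ho hn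
    · show Pool.Agent.H85.TG.φ p c (vec (ZMod 2) s t f) = vec (ZMod 2) _ _ (some f)
      unfold vec
      rw [map_sub, Pool.Agent.H85.TG.φ_single, Pool.Agent.H85.TG.φ_single, hab f]
      rfl
  · intro x hx h
    have h1 : Pool.Agent.H85.TG.sumC x = 0 := by
      have h2 : Submodule.span (ZMod 2) (range (ev s t p)) ≤
          LinearMap.ker (Pool.Agent.H85.TG.sumC (V := V)) := by
        rw [Submodule.span_le]
        rintro _ ⟨o, rfl⟩
        exact Pool.Agent.H85.TG.sumC_ev s t p o
      exact h2 hx
    rcases Pool.Agent.H85.TG.ker_φ s t p hp c x h1 h with h2 | h2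
    · rw [h2]
      exact zero_mem _
    · rw [h2]
      exact Submodule.mem_span_singleton_self _

theorem result (V E : Type) [Fintype V] [DecidableEq V] [Finite E] (s t : E → V)
    (p : Fin 4 → V) (hp : Function.Injective p) :
    -- (1)
    (IsRep (graft s t p) (ZMod 2) (ev s t p) ∧
      (∀ I : Set (Option E), (graft s t p ＼ {none}).Indep I ↔
        none ∉ I ∧ LinearIndepOn (ZMod 2) (vec (ZMod 2) s t) (some ⁻¹' I)) ∧
      Graphic (graft s t p ＼ {none}) ∧ Regular (graft s t p ＼ {none})) ∧
    -- (2)
    ((∃ c, Coloured s t p c) →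
      Graphic (graft s t p ／ {none}) ∧ Regular (graft s t p ／ {none})) ∧
    -- (3)
    ((∃ i j k l, Dist i j k l ∧ ¬ Linkage s t p i j k l) → Regular (graft s t p)) ∧
    -- (4)
    (Conn s t → ThreeConn (graft s t p) →
      (Regular (graft s t p) ↔ ∃ i j k l, Dist i j k l ∧ ¬ Linkage s t p i j k l) ∧
      (∀ (F : Type) [Field F], (2 : F) ≠ 0 →
        (Rep (graft s t p) F ↔ ∃ i j k l, Dist i j k l ∧ ¬ Linkage s t p i j k l)) ∧
      ((∃ c, Coloured s t p c) → (Regular (graft s t p) ↔ Graphic (graft s t p))) ∧
      (¬ Regular (graft s t p) →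
        (Regular (graft s t p ／ {none}) ↔ ∃ c, Coloured s t p c) ∧
        ∀ (F : Type) [Field F], (2 : F) ≠ 0 →
          (Rep (graft s t p ／ {none}) F ↔ ∃ c, Coloured s t p c))) ∧
    -- (5)
    (Conn s t → ThreeConn (graft s t p ＼ {none}) → ThreeConn (graft s t p) ∧
      ((¬ Regular (graft s t p) ∧ Regular (graft s t p ／ {none})) ↔ ∃ c, Coloured s t p c)) ∧
    -- (6)
    (∀ (m : ℕ) [NeZero m] (h : V) (q : ZMod m → V) (c : V → ZMod m), m % 2 = 1 → 3 ≤ m →
      Function.Injective q → (∀ i, q i ≠ h) → Wheel s t h q c →
      IsRep (graftW s t h q) (ZMod 2) (evW s t h q) ∧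
      graftW s t h q ＼ {none} = graft s t p ＼ {none} ∧
      Graphic (graftW s t h q ／ {none}) ∧ Regular (graftW s t h q ／ {none}) ∧
      (Conn s t → ThreeConn (graftW s t h q ＼ {none}) →
        ThreeConn (graftW s t h q) ∧ ¬ Regular (graftW s t h q) ∧
        ∀ (F : Type) [Field F], (2 : F) ≠ 0 → ¬ Rep (graftW s t h q) F)) := by
  have hdel : Graphic (graft s t p ＼ {none}) := by
    refine ⟨V, inferInstance, inferInstance, fun o : Option E => o.elim (p 0) s,
      fun o : Option E => o.elim (p 0) t, ?_⟩
    intro I hI
    have hn : none ∉ I := fun h => (hI h).2 rfl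
    rw [deleteElem_indep_iff, and_iff_left hn, graft, linMat_indep]
    apply linearIndepOn_congr
    intro o ho
    rcases o with _ | f
    · exact absurd ho hn
    · rfl
  have h2 : (∃ c, Coloured s t p c) →
      Graphic (graft s t p ／ {none}) ∧ Regular (graft s t p ／ {none}) := by
    rintro ⟨c, hc⟩
    have h1 := contract_graphic s t p hp c hc
    exact ⟨h1, regular_of_graphic h1⟩
  have h3 : (∃ i j k l, Dist i j k l ∧ ¬ Linkage s t p i j k l) → Regular (graft s t p) := by
    rintro ⟨i, j, k, l, hd, h⟩
    exact Pool.Agent.H85.TG.regular_of_no_linkage hd h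
  -- the contraction, if `G - u` is connected for all `u`
  have hcon : Conn s t → Pool.Agent.H85.TG.Off s t → ¬ Regular (graft s t p) →
      ∀ (F : Type) [Field F], (2 : F) ≠ 0 → Rep (graft s t p ／ {none}) F →
        ∃ c, Coloured s t p c := by
    intro hconn hoff hreg F _ hF hrep
    by_contra hcol
    refine Pool.Agent.H85.TG.no_contract_rep hoff hconn hp ?_ hcol hF hrep
    intro i j k l hd
    by_contra h
    exact hreg (h3 ⟨i, j, k, l, hd, h⟩)
  refine ⟨⟨Pool.Agent.H85.TG.ev_rep, ?_, hdel, regular_of_graphic hdel⟩, h2, h3, ?_, ?_, ?_⟩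
  · intro I
    rw [deleteElem_indep_iff, and_comm]
    refine and_congr_right fun hn => ?_
    have h1 : I = some '' (some ⁻¹' I) := by
      ext o
      rcases o with _ | f
      · simp [hn]
      · simp
    rw [graft, linMat_indep]
    constructor
    · intro h
      rw [h1] at h
      exact h.comp_of_image (Option.some_injective E).injOn
    · intro h
      rw [h1]
      exact LinearIndepOn.image_of_comp some (ev s t p) h
  · intro hconn hM
    have hoff := Pool.Agent.H85.TG.off_of_three hM hconn (Pool.Agent.H85.TG.card_of_conn hconn hp)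
    have h4 : ∀ (F : Type) [Field F], (2 : F) ≠ 0 → Rep (graft s t p) F →
        ∃ i j k l, Dist i j k l ∧ ¬ Linkage s t p i j k l := by
      intro F _ hF hrep
      by_contra hcon
      push Not at hcon
      exact Pool.Agent.H85.TG.nonrep2 hoff hconn hp hcon hF hrep
    refine ⟨⟨fun h => h4 ℚ two_ne_zero (h ℚ), h3⟩, fun F _ hF => ⟨h4 F hF, fun h => h3 h F⟩,
      ?_, ?_⟩
    · rintro ⟨c, hc⟩
      refine ⟨fun hreg => ?_, regular_of_graphic⟩
      by_contra hgr
      refine Pool.Agent.H85.TG.nonrep (c := c) hoff hconn hp ?_ (F := ℚ) two_ne_zero (hreg ℚ)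
      intro i j hij
      have h5 : Pool.Agent.H85.TG.Linked s t p c i j := by
        by_contra h6
        exact hgr (Pool.Agent.H85.TG.graphic_of_not_linked hp hc hij h6)
      exact h5.mem
    · intro hreg
      have h5 := hcon hconn hoff hreg
      exact ⟨⟨fun h => h5 ℚ two_ne_zero (h ℚ), fun h => (h2 h).2⟩,
        fun F _ hF => ⟨h5 F hF, fun h => (h2 h).2 F⟩⟩
  · intro hconn hG
    have hE := Pool.Agent.H85.TG.card_of_three hG hconn hp
    have hoff : Pool.Agent.H85.TG.Off s t :=
      fun u a b ha hb => Pool.Agent.H85.TG.sub_mem_span hG hconn ha hb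
    refine ⟨Pool.Agent.H85.TG.graft_three hG hconn hE hp, ?_, ?_⟩
    · rintro ⟨h4, h5⟩
      exact hcon hconn hoff h4 ℚ two_ne_zero (h5 ℚ)
    · rintro ⟨c, hc⟩
      refine ⟨fun hreg => ?_, (h2 ⟨c, hc⟩).2⟩
      refine Pool.Agent.H85.TG.nonrep (c := c) hoff hconn hp ?_ (F := ℚ) two_ne_zero (hreg ℚ)
      intro i j hij
      obtain ⟨k, l, hik, hil, hjk, hjl, hkl⟩ :
          ∃ k l : Fin 4, i ≠ k ∧ i ≠ l ∧ j ≠ k ∧ j ≠ l ∧ k ≠ l := by
        revert i j
        decide
      have hV : 2 ≤ Fintype.card V := by
        have := Fintype.card_le_of_injective p hp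
        rw [Fintype.card_fin] at this
        omega
      exact Pool.Agent.H85.TG.link hG hconn hE hV hp hc hij hik hil hjk hjl hkl
  · intro m _ h q c hm hm3 hq hh hw
    have h5 := Pool.Agent.H85.TV.contract_graphic hq hh hm hw
    refine ⟨Pool.Agent.H85.TV.evW_rep, Pool.Agent.H85.TV.del_eq p, h5, regular_of_graphic h5, ?_⟩
    intro hconn hG
    obtain ⟨h6, h7⟩ := Pool.Agent.H85.TV.wheel_main hq hh hm hm3 hw hconn hG
    exact ⟨h6, fun h8 => h7 ℚ two_ne_zero (h8 ℚ), h7⟩

end Pool.Agent.Results.MP_367fb1_co.FourVertices
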