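import Pool.Agent.H34.GC.Fin9

/-!
# Matroids with a graphic deletion and a cographic contraction (MP_367fb1_co)

The matroid `M` lives on `Option E`, the distinguished element is `none`. `vtx p` and `fac p` are the two ends
of the edge `p` in two graphs `G` and `H` with the same edges; `cyc vtx` is the cycle matroid of `G`, the binary
matroid of the incidence vectors `inc vtx p`. For a set `S` of vertices of `G`, `cyc (fun o => o.elim S vtx)` is
the graft of `G` and `S`: the binary matroid of the incidence vectors of the edges and, for `none`, of the set
`S`.

Let `M` be binary and 3-connected, `M \ none` the cycle matroid of `G` and `M / none` the dual of the cycle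
matroid of `H`. Then `M` is the graft of `G` and a set `S`, `M✶` is the graft of `H` and a set `T`, the sizes of
`S` and `T` are as below, and `M` is not regular if and only if `Quad vtx S` or `Quad fac T`: `S` has four
vertices, no component of `G - S` is adjacent to all of them (`ApartBy`: the vertex `c v` of `S` is not adjacent
to the component of `v`), and any two of them are joined as in `Lk`.

Proof (`Pool/Agent/H34/GC`): the edges are glued as squares with corners `v, f, v', f'` to a surface with
boundary `K_{S,T}`; its Euler characteristic gives `(|S| - 4) (|T| - 4) ≤ 4` (linear algebra over `ZMod 2` in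
`Core`); in the case `|S| = |T| = 6` all parts of the surface are single squares (`Core6`, `Fin6`); in the case
`|S| = 4` a part which touches all of `S` leaves only single squares, and `M✶` is graphic (`Core4`, `Fin4`).
The last step (`K`) is the theorem on grafts with four vertices of `FourVertices` (helper85).
-/

set_option autoImplicit false

namespace Pool.Agent.Results.MP_367fb1_co.GraphicCographic

open Pool.Agent.H34.PM Pool.Agent.H34.GC Matroid

theorem result (V E Φ : Type) [Fintype V] [Fintype E] [Fintype Φ] (vtx : E → Finset V)
    (fac : E → Finset Φ) (two_v : ∀ p, (vtx p).card = 2) (two_f : ∀ p, (fac p).card = 2)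
    (iso_v : NoIso vtx) (iso_f : NoIso fac) (hcard : 3 ≤ Fintype.card E)
    (M : Matroid (Option E)) (hE : M.E = Set.univ) (hb : Rep (ZMod 2) M)
    (h3 : ThreeConnected M)
    (hd : M ＼ {none} = (cyc vtx).map some (Option.some_injective E).injOn)
    (hc : M ／ {none} = ((cyc fac)✶).map some (Option.some_injective E).injOn) :
    ∃ (S : Finset V) (T : Finset Φ),
      M = cyc (fun o : Option E => o.elim S vtx) ∧ M✶ = cyc (fun o : Option E => o.elim T fac) ∧
      (∀ v f, Nat.card {p // v ∈ vtx p ∧ f ∈ fac p} % 2 = 1 ↔ v ∈ S ∧ f ∈ T) ∧
      Fintype.card V + Fintype.card Φ = Fintype.card E + 3 ∧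
      Even S.card ∧ Even T.card ∧
      (S.card = 2 ∨ T.card = 2 ∨ S.card = 4 ∨ T.card = 4 ∨ (S.card = 6 ∧ T.card = 6)) ∧
      (¬ Regular M ↔ Quad vtx S ∨ Quad fac T) :=
  main_iff vtx fac two_v two_f iso_v iso_f hcard M hE hb h3 hd hc

end Pool.Agent.Results.MP_367fb1_co.GraphicCographic
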