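import Pool.Agent.H34.PM.Fin
import Pool.Agent.H34.PM.WMap
import Pool.Agent.H34.PM.WThr

/-!
# The answers with `M / e` graphic and `M \ e` cographic are the graphs in the projective plane

`M` has the vectors `(star of p mod 2, w p)`, `p` an edge, and `(0, 1)` for the new element `e`;
`w` vanishes on the face boundaries, but not on all cycles. So `M / e` is the cycle matroid of the
graph, `M \ e` the bond matroid of the dual graph. If `M` had a representation over `ℚ`, the
relations `c_f` of the faces and functionals `g_v` of the stars could be scaled so that both sum to
zero (dimension count from `|V| - |E| + |F| = 1`), and the signs of the numbers `c_f(p) g_v(p)` would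
orient the surface, but an orientable map has even Euler characteristic. Conversely, if some face
boundary (vertex star) is not a cycle of the other graph, it splits into exactly two cycles, and `M`
is the bond (cycle) matroid of the graph in which this vertex is split into the two ends of `e`, so
regular.
-/

set_option autoImplicit false

namespace Pool.Agent.Results.MP_367fb1_co.ProjectivePlanar

open Pool.Agent.H34.PM Matroid

/-- (1) For every map with Euler characteristic 1 (a graph in the projective plane, the faces
bounded by cycles) there is a binary matroid `M` on the edges and a new element `e = none`, not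
representable over `ℚ`, for which `M / e` is the cycle matroid `cyc vtx` of the graph, `M \ e` the
bond matroid of the dual graph, both regular; `M` is 3-connected if the cycle matroid of one of the
two graphs is.
(2) Let `vtx`, `fac` be two loopless graphs without isolated vertices, with the same edges, at least
three, and `M` a 3-connected binary matroid, `M / e` the cycle matroid of the first, `M \ e` the bond
matroid of the second graph. Then `|V| - |E| + |Φ| = 1`, and `M` is not regular iff the two graphs
form a map.
(3) The wheels with `2 n + 3` spokes are graphs as in (1), with 3-connected cycle matroid. -/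
theorem result :
    (∀ (V E Φ : Type) [Fintype V] [Fintype E] [Fintype Φ] [Nonempty E] (vtx : E → Finset V)
      (fac : E → Finset Φ), IsMap vtx fac →
      Fintype.card V + Fintype.card Φ = Fintype.card E + 1 →
      ∃ M : Matroid (Option E), M.E = Set.univ ∧ Rep (ZMod 2) M ∧ ¬ Rep ℚ M ∧
        M ／ {none} = (cyc vtx).map some (Option.some_injective E).injOn ∧
        M ＼ {none} = ((cyc fac)✶).map some (Option.some_injective E).injOn ∧
        Regular (M ／ {none}) ∧ Regular (M ＼ {none}) ∧
        (ThreeConnected (cyc vtx) ∨ ThreeConnected (cyc fac) → ThreeConnected M)) ∧
    (∀ (V E Φ : Type) [Fintype V] [Fintype E] [Fintype Φ] (vtx : E → Finset V)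
      (fac : E → Finset Φ), (∀ p, (vtx p).card = 2) → (∀ p, (fac p).card = 2) → NoIso vtx →
      NoIso fac → 3 ≤ Fintype.card E →
      ∀ M : Matroid (Option E), M.E = Set.univ → Rep (ZMod 2) M → ThreeConnected M →
        M ／ {none} = (cyc vtx).map some (Option.some_injective E).injOn →
        M ＼ {none} = ((cyc fac)✶).map some (Option.some_injective E).injOn →
        Fintype.card V + Fintype.card Φ = Fintype.card E + 1 ∧ (¬ Regular M ↔ IsMap vtx fac)) ∧
    (∀ n : ℕ, IsMap (wv n) (wf n) ∧
      Fintype.card (Option (ZMod (2 * n + 3))) + Fintype.card (ZMod (2 * n + 3)) =
        Fintype.card (ZMod (2 * n + 3) ⊕ ZMod (2 * n + 3)) + 1 ∧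
      ThreeConnected (cyc (wv n))) :=
  ⟨fun _ _ _ _ _ _ _ vtx fac h hE => existence vtx fac h hE,
    fun _ _ _ _ _ _ vtx fac h1 h2 h3 h4 h5 M h6 h7 h8 h9 h10 =>
      classification3 vtx fac h1 h2 h3 h4 h5 M h6 h7 h8 h9 h10,
    fun n => ⟨wheel_isMap n, wheel_euler n, wheel_three n⟩⟩

end Pool.Agent.Results.MP_367fb1_co.ProjectivePlanar
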