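import Pool.Agent.H36.TX.Seven

set_option autoImplicit false

/-!
# Seymour's question on non-regular matroids with regular deletion and contraction: elements in a quad

`Rep M F`: `M` is representable over the field `F`; `Regular M`: over every field; `ThreeConn M`: no `k`-separation for
`k = 1, 2`; `Joined N y z`: some circuit of `N` contains `y` and `z`; `Diff4 e x y z`: the four elements are different.

(1) Let `M` be a finite binary matroid and `{e, x, y, z}` a circuit and a cocircuit of `M`. Then `M ＼ e` and `M ／ e` are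
representable over the same fields; `M` is regular iff `M ＼ e` is and one of the three pairs of `x, y, z` lies on no circuit
of `(M ＼ e) ／ (third element)`; if `M` is 3-connected with at least 7 elements it is not representable over any field of
characteristic other than two; if `M ＼ e` or `M ／ e` is 3-connected with at least 4 elements then `M` is 3-connected and not
representable over any field of characteristic other than two. (2) Every 3-connected binary matroid `R` with at least 4
elements and a triad (triangle) `{x, y, z}` is `M ＼ e` (`M ／ e`) for such an `M`. (3) There is an answer `M` to Seymour's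
question with `2 n + 1` elements for every `n ≥ 3`.
-/

namespace Pool.Agent.Results.MP_367fb1_co.Quads

open Pool.Agent.H36.TX
open scoped Matroid

theorem result :
    -- (1) binary matroids with a circuit and cocircuit `{e, x, y, z}`
    (∀ (α : Type) [Finite α] (M : Matroid α) (e x y z : α), Diff4 e x y z → Rep M (ZMod 2) →
      M.IsCircuit {e, x, y, z} → M.IsCocircuit {e, x, y, z} →
        (∀ (F : Type) [Field F], Rep (M ＼ {e}) F ↔ Rep (M ／ {e}) F) ∧
        (∀ (F : Type) [Field F], (2 : F) ≠ 0 → (Rep M F ↔ Rep (M ＼ {e}) F ∧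
          ¬ (Joined ((M ＼ {e}) ／ {x}) y z ∧ Joined ((M ＼ {e}) ／ {y}) x z ∧
            Joined ((M ＼ {e}) ／ {z}) x y))) ∧
        (Regular M ↔ Regular (M ＼ {e}) ∧
          ¬ (Joined ((M ＼ {e}) ／ {x}) y z ∧ Joined ((M ＼ {e}) ／ {y}) x z ∧
            Joined ((M ＼ {e}) ／ {z}) x y)) ∧
        (ThreeConn M → 7 ≤ M.E.encard → ∀ (F : Type) [Field F], (2 : F) ≠ 0 → ¬ Rep M F) ∧
        ((ThreeConn (M ＼ {e}) ∧ 4 ≤ (M ＼ {e}).E.encard) ∨ (ThreeConn (M ／ {e}) ∧ 4 ≤ (M ／ {e}).E.encard) →
          ThreeConn M ∧ ∀ (F : Type) [Field F], (2 : F) ≠ 0 → ¬ Rep M F)) ∧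
    -- (2) existence, from triads and from triangles
    (∀ (α : Type) [Finite α] (R : Matroid α) (e x y z : α), Diff4 e x y z → e ∉ R.E → Rep R (ZMod 2) →
      ThreeConn R → 4 ≤ R.E.encard →
        (R.IsCocircuit {x, y, z} → ∃ M : Matroid α, M ＼ {e} = R ∧ Rep M (ZMod 2) ∧
          M.IsCircuit {e, x, y, z} ∧ M.IsCocircuit {e, x, y, z}) ∧
        (R.IsCircuit {x, y, z} → ∃ M : Matroid α, M ／ {e} = R ∧ Rep M (ZMod 2) ∧
          M.IsCircuit {e, x, y, z} ∧ M.IsCocircuit {e, x, y, z})) ∧
    -- (3) infinitely many answers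
    ∀ n : ℕ, 3 ≤ n → ∃ (α : Type) (_ : Finite α) (M : Matroid α) (e : α),
      M.E.encard = ((2 * n + 1 : ℕ) : ℕ∞) ∧ e ∈ M.E ∧ ThreeConn M ∧ Rep M (ZMod 2) ∧ ¬ Regular M ∧
        Regular (M ＼ {e}) ∧ Regular (M ／ {e}) := by
  refine ⟨?_, ?_, fun n hn => examples n hn⟩
  · intro α _ M e x y z hd hM hC hK
    exact ⟨fun F _ => del_con M hd hM hC hK F, fun F _ h2 => quad_iff M hd hM hC hK F h2,
      regular_iff M hd hM hC hK, fun h3 h7 F _ h2 => seven M hd hM hC hK h3 h7 F h2,
      three_and M hd hM hC hK⟩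
  · intro α _ R e x y z hd he hR h3 h4
    exact ⟨exists_ext R hR h3 h4 hd he, exists_coext R hR h3 h4 hd he⟩

end Pool.Agent.Results.MP_367fb1_co.Quads
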